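import Mathlib
import Pool.Agent.R543.BP.Main

/-!
# The sufficient conditions for equal-cardinality ball partitioning are not optimal

Question (MP_bdabc0_co, Q1): for every weight vector `w` and every strict relaxation of the
condition (S), is there, for all sufficiently large `d`, a tuple of capacities satisfying the
relaxed inequalities whose ball partitioning problem is infeasible?

Answer: no.  For `w = (5,3,3,2,2,0)` one has `(b_1,…,b_6) = (3,1,1,2,1,0)`.  Replacing `b_1 = 3`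
by `2` is a strict relaxation for every `d ≥ 4`, and for every `d ≥ 4` all capacities satisfying
the relaxed inequalities still give a feasible problem.
-/

namespace Pool.Agent.Results.MP_bdabc0_co.RelaxableConstant

open Finset

/-- `BP(d, C; w)` is feasible.  The balls are the pairs `(i, k)` (the `k`-th of the `d` copies of
the weight `w i`); `f` sends every ball to its bin; every bin receives exactly `d` balls and the
total weight in bin `j` is at most `C j`. -/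
def Feasible {n : ℕ} (w : Fin n → ℕ) (d : ℕ) (C : Fin n → ℤ) : Prop :=
  ∃ f : Fin n × Fin d → Fin n, ∀ j : Fin n,
    (univ.filter (fun x => f x = j)).card = d ∧
    ∑ x ∈ univ.filter (fun x => f x = j), (w x.1 : ℤ) ≤ C j

/-- The conjugate: `λ'_c` is the number of entries of `λ` that are `≥ c`. -/
def conj (L : List ℕ) (c : ℕ) : ℕ := L.countP (fun x => decide (c ≤ x))

/-- For `h > 0`: the multiplicity of `h` among `λ'_1, λ'_2, …, λ'_{max λ}`
(all later `λ'_c` are `0`). -/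
def mult (L : List ℕ) (h : ℕ) : ℕ :=
  (List.range (L.foldr max 0)).countP (fun c => decide (conj L (c + 1) = h))

/-- The list `h_1 > h_2 > … > h_k` of the values of the conjugate strictly between `r` (the
length of `λ`) and `0`. -/
def heights (L : List ℕ) : List ℕ :=
  (List.range L.length).reverse.filter (fun h => decide (0 < h ∧ 0 < mult L h))

/-- `bSum L h_{t-1} [h_t, …, h_k]` is
`∑_{s=t}^{k} (h_{s-1} - h_s)(a_s - 1) + (h_k - 1)(a_k - 1)`, and `0` for the empty list. -/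
def bSum (L : List ℕ) : ℕ → List ℕ → ℤ
  | _, [] => 0
  | h₀, [h] => ((h₀ : ℤ) - h) * ((mult L h : ℤ) - 1) + ((h : ℤ) - 1) * ((mult L h : ℤ) - 1)
  | h₀, h :: h' :: t => ((h₀ : ℤ) - h) * ((mult L h : ℤ) - 1) + bSum L h (h' :: t)

/-- The constant `b(λ)` of the problem. -/
def b (L : List ℕ) : ℤ := bSum L L.length (heights L)

/-- `b_i = b(w_i, …, w_n)`. -/
def bVec {n : ℕ} (w : Fin n → ℕ) (i : Fin n) : ℤ := b ((List.ofFn w).drop i)

/-- The inequalities `C_i + ⋯ + C_n ≥ d (w_i + ⋯ + w_n) + c_i` for all `i`.  Condition (S) is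
`Sat w d (bVec w)`. -/
def Sat {n : ℕ} (w : Fin n → ℕ) (d : ℕ) (c : Fin n → ℤ) (C : Fin n → ℤ) : Prop :=
  ∀ i, (d : ℤ) * ∑ j ∈ Ici i, (w j : ℤ) + c i ≤ ∑ j ∈ Ici i, C j

/-- The relaxation with constants `c` is strict at `d`: `c ≤ b`, and some non-increasing integer
tuple satisfies the relaxed inequalities but not (S). -/
def StrictAt {n : ℕ} (w : Fin n → ℕ) (d : ℕ) (c : Fin n → ℤ) : Prop :=
  (∀ i, c i ≤ bVec w i) ∧ ∃ C : Fin n → ℤ, Antitone C ∧ Sat w d c C ∧ ¬ Sat w d (bVec w) C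

/-- The positive answer to Q1: for every `w` and every relaxation `c` that is strict for all
large `d`, for all large `d` some non-increasing `C` satisfying the relaxed inequalities is
infeasible. -/
def PositiveAnswer : Prop :=
  ∀ (n : ℕ) (w : Fin n → ℕ), 1 ≤ n → Antitone w → ∀ c : Fin n → ℤ,
    (∃ D₀ : ℕ, ∀ d, D₀ ≤ d → StrictAt w d c) →
    ∃ D : ℕ, ∀ d, D ≤ d → ∃ C : Fin n → ℤ, Antitone C ∧ Sat w d c C ∧ ¬ Feasible w d C

/-! ### From matrices to assignments of balls -/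

theorem feasible_of_MF {d : ℕ} {C : Fin 6 → ℤ} (h : R543.BP.MF d C) :
    Feasible (![5,3,3,2,2,0] : Fin 6 → ℕ) d C := by
  obtain ⟨x, h1, h2, h3⟩ := h
  have hcard : ∀ i, Fintype.card (Σ j : Fin 6, Fin (x i j)) = Fintype.card (Fin d) := by
    intro i
    rw [Fintype.card_sigma]
    simp [h1 i]
  let e : ∀ i, (Σ j : Fin 6, Fin (x i j)) ≃ Fin d := fun i => Fintype.equivOfCardEq (hcard i)
  -- the number of copies of weight `i` in bin `j`
  have hfib : ∀ i j, (univ.filter (fun k : Fin d => ((e i).symm k).1 = j)).card = x i j := by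
    intro i j
    have : (univ.filter (fun k : Fin d => ((e i).symm k).1 = j)).card
        = (univ.filter (fun p : (Σ j : Fin 6, Fin (x i j)) => p.1 = j)).card := by
      apply Finset.card_bij (fun k _ => (e i).symm k)
      · intro k hk
        simpa using hk
      · intro k _ k' _ hkk
        exact (e i).symm.injective hkk
      · intro p hp
        refine ⟨e i p, ?_, by simp⟩
        simpa using hp
    rw [this]
    have h4 : (univ.filter (fun p : (Σ j : Fin 6, Fin (x i j)) => p.1 = j))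
        = (univ : Finset (Fin (x i j))).map ⟨fun k => ⟨j, k⟩, fun a b hab => by simpa using hab⟩ := by
      ext ⟨j', k⟩
      simp only [Finset.mem_filter, Finset.mem_univ, true_and, Finset.mem_map]
      constructor
      · rintro rfl
        exact ⟨k, rfl⟩
      · rintro ⟨a, ha⟩
        exact (congrArg Sigma.fst ha).symm
    rw [h4, Finset.card_map, Finset.card_univ, Fintype.card_fin]
  refine ⟨fun p => ((e p.1).symm p.2).1, ?_⟩
  intro j
  have hsum : ∀ g : Fin 6 → ℤ,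
      ∑ p ∈ univ.filter (fun p : Fin 6 × Fin d => ((e p.1).symm p.2).1 = j), g p.1
        = ∑ i, g i * (x i j : ℤ) := by
    intro g
    rw [Finset.sum_filter, Fintype.sum_prod_type]
    apply Finset.sum_congr rfl
    intro i _
    rw [← Finset.sum_filter]
    show (∑ a ∈ univ.filter (fun a : Fin d => ((e i).symm a).1 = j), g i) = _
    rw [Finset.sum_const, hfib i j, nsmul_eq_mul, mul_comm]
  constructor
  · have := hsum (fun _ => 1)
    simp only [one_mul, Finset.sum_const, nsmul_eq_mul, mul_one] at this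
    have h5 : (∑ i, (x i j : ℤ)) = d := by exact_mod_cast h2 j
    rw [h5] at this
    exact_mod_cast this
  · have h6 := hsum (fun i => ((![5,3,3,2,2,0] : Fin 6 → ℕ) i : ℤ))
    rw [h6]
    refine le_trans (le_of_eq ?_) (h3 j)
    apply Finset.sum_congr rfl
    intro i _
    fin_cases i <;> simp

theorem bVec_eq : bVec (![5,3,3,2,2,0] : Fin 6 → ℕ) = ![3,1,1,2,1,0] := by
  funext i
  fin_cases i <;> decide +kernel

theorem sum_Ici (g : Fin 6 → ℤ) :
    (∑ j ∈ Ici (0 : Fin 6), g j = g 0 + g 1 + g 2 + g 3 + g 4 + g 5) ∧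
    (∑ j ∈ Ici (1 : Fin 6), g j = g 1 + g 2 + g 3 + g 4 + g 5) ∧
    (∑ j ∈ Ici (2 : Fin 6), g j = g 2 + g 3 + g 4 + g 5) ∧
    (∑ j ∈ Ici (3 : Fin 6), g j = g 3 + g 4 + g 5) ∧
    (∑ j ∈ Ici (4 : Fin 6), g j = g 4 + g 5) ∧
    (∑ j ∈ Ici (5 : Fin 6), g j = g 5) := by
  have e0 : (Ici (0 : Fin 6)) = {0, 1, 2, 3, 4, 5} := by decide
  have e1 : (Ici (1 : Fin 6)) = {1, 2, 3, 4, 5} := by decide
  have e2 : (Ici (2 : Fin 6)) = {2, 3, 4, 5} := by decide
  have e3 : (Ici (3 : Fin 6)) = {3, 4, 5} := by decide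
  have e4 : (Ici (4 : Fin 6)) = {4, 5} := by decide
  have e5 : (Ici (5 : Fin 6)) = {5} := by decide
  rw [e0, e1, e2, e3, e4, e5]
  refine ⟨?_, ?_, ?_, ?_, ?_, ?_⟩
  · rw [Finset.sum_insert (by decide), Finset.sum_insert (by decide),
      Finset.sum_insert (by decide), Finset.sum_insert (by decide),
      Finset.sum_insert (by decide), Finset.sum_singleton]; ring
  · rw [Finset.sum_insert (by decide), Finset.sum_insert (by decide),
      Finset.sum_insert (by decide), Finset.sum_insert (by decide), Finset.sum_singleton]; ring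
  · rw [Finset.sum_insert (by decide), Finset.sum_insert (by decide),
      Finset.sum_insert (by decide), Finset.sum_singleton]; ring
  · rw [Finset.sum_insert (by decide), Finset.sum_insert (by decide), Finset.sum_singleton]; ring
  · rw [Finset.sum_insert (by decide), Finset.sum_singleton]
  · rw [Finset.sum_singleton]

/-- `Sat` for six weights, written out. -/
theorem sat_iff (d : ℕ) (c C : Fin 6 → ℤ) :
    Sat (![5,3,3,2,2,0] : Fin 6 → ℕ) d c C ↔
      ((d : ℤ) * 15 + c 0 ≤ C 0 + C 1 + C 2 + C 3 + C 4 + C 5 ∧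
       (d : ℤ) * 10 + c 1 ≤ C 1 + C 2 + C 3 + C 4 + C 5 ∧
       (d : ℤ) * 7 + c 2 ≤ C 2 + C 3 + C 4 + C 5 ∧
       (d : ℤ) * 4 + c 3 ≤ C 3 + C 4 + C 5 ∧
       (d : ℤ) * 2 + c 4 ≤ C 4 + C 5 ∧
       (d : ℤ) * 0 + c 5 ≤ C 5) := by
  obtain ⟨q0, q1, q2, q3, q4, q5⟩ := sum_Ici C
  obtain ⟨r0, r1, r2, r3, r4, r5⟩ := sum_Ici (fun j => ((![5,3,3,2,2,0] : Fin 6 → ℕ) j : ℤ))
  have w0 : ∑ j ∈ Ici (0 : Fin 6), ((![5,3,3,2,2,0] : Fin 6 → ℕ) j : ℤ) = 15 := by
    rw [r0]; simp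
  have w1 : ∑ j ∈ Ici (1 : Fin 6), ((![5,3,3,2,2,0] : Fin 6 → ℕ) j : ℤ) = 10 := by
    rw [r1]; simp
  have w2 : ∑ j ∈ Ici (2 : Fin 6), ((![5,3,3,2,2,0] : Fin 6 → ℕ) j : ℤ) = 7 := by
    rw [r2]; simp
  have w3 : ∑ j ∈ Ici (3 : Fin 6), ((![5,3,3,2,2,0] : Fin 6 → ℕ) j : ℤ) = 4 := by
    rw [r3]; simp
  have w4 : ∑ j ∈ Ici (4 : Fin 6), ((![5,3,3,2,2,0] : Fin 6 → ℕ) j : ℤ) = 2 := by
    rw [r4]; simp
  have w5 : ∑ j ∈ Ici (5 : Fin 6), ((![5,3,3,2,2,0] : Fin 6 → ℕ) j : ℤ) = 0 := by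
    rw [r5]; simp
  constructor
  · intro h
    have h0 := h 0
    have h1 := h 1
    have h2 := h 2
    have h3 := h 3
    have h4 := h 4
    have h5 := h 5
    rw [w0, q0] at h0
    rw [w1, q1] at h1
    rw [w2, q2] at h2
    rw [w3, q3] at h3
    rw [w4, q4] at h4
    rw [w5, q5] at h5
    exact ⟨h0, h1, h2, h3, h4, h5⟩
  · rintro ⟨h0, h1, h2, h3, h4, h5⟩ i
    fin_cases i
    · show (d : ℤ) * ∑ j ∈ Ici (0 : Fin 6), _ + c 0 ≤ ∑ j ∈ Ici (0 : Fin 6), C j
      rw [w0, q0]; exact h0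
    · show (d : ℤ) * ∑ j ∈ Ici (1 : Fin 6), _ + c 1 ≤ ∑ j ∈ Ici (1 : Fin 6), C j
      rw [w1, q1]; exact h1
    · show (d : ℤ) * ∑ j ∈ Ici (2 : Fin 6), _ + c 2 ≤ ∑ j ∈ Ici (2 : Fin 6), C j
      rw [w2, q2]; exact h2
    · show (d : ℤ) * ∑ j ∈ Ici (3 : Fin 6), _ + c 3 ≤ ∑ j ∈ Ici (3 : Fin 6), C j
      rw [w3, q3]; exact h3
    · show (d : ℤ) * ∑ j ∈ Ici (4 : Fin 6), _ + c 4 ≤ ∑ j ∈ Ici (4 : Fin 6), C j
      rw [w4, q4]; exact h4
    · show (d : ℤ) * ∑ j ∈ Ici (5 : Fin 6), _ + c 5 ≤ ∑ j ∈ Ici (5 : Fin 6), C j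
      rw [w5, q5]; exact h5

theorem feasible_of_sat {d : ℕ} (hd : 4 ≤ d) {C : Fin 6 → ℤ} (hC : Antitone C)
    (h : Sat (![5,3,3,2,2,0] : Fin 6 → ℕ) d ![2,1,1,2,1,0] C) :
    Feasible (![5,3,3,2,2,0] : Fin 6 → ℕ) d C := by
  rw [sat_iff] at h
  obtain ⟨h0, h1, h2, h3, h4, h5⟩ := h
  have c0 : (![2,1,1,2,1,0] : Fin 6 → ℤ) 0 = 2 := rfl
  have c1 : (![2,1,1,2,1,0] : Fin 6 → ℤ) 1 = 1 := rfl
  have c2 : (![2,1,1,2,1,0] : Fin 6 → ℤ) 2 = 1 := rfl
  have c3 : (![2,1,1,2,1,0] : Fin 6 → ℤ) 3 = 2 := rfl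
  have c4 : (![2,1,1,2,1,0] : Fin 6 → ℤ) 4 = 1 := rfl
  have c5 : (![2,1,1,2,1,0] : Fin 6 → ℤ) 5 = 0 := rfl
  rw [c0] at h0; rw [c1] at h1; rw [c2] at h2; rw [c3] at h3; rw [c4] at h4; rw [c5] at h5
  apply feasible_of_MF
  apply R543.BP.main d hd C hC
  refine ⟨?_, ?_, ?_, ?_, ?_, ?_⟩ <;> linarith

theorem antitone_w : Antitone (![5,3,3,2,2,0] : Fin 6 → ℕ) := by
  intro a b hab
  revert a b
  decide

theorem strict_at {d : ℕ} (hd : 4 ≤ d) :
    StrictAt (![5,3,3,2,2,0] : Fin 6 → ℕ) d ![2,1,1,2,1,0] := by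
  refine ⟨?_, ?_⟩
  · intro i
    rw [bVec_eq]
    fin_cases i <;> simp
  · have hd' : (4 : ℤ) ≤ d := by exact_mod_cast hd
    refine ⟨![5*d, 3*d, 3*d, 2*d+1, 2*d, 1], ?_, ?_, ?_⟩
    · apply antitone_of_succ_le
      intro i hi
      fin_cases i
      · show (![5*(d:ℤ), 3*d, 3*d, 2*d+1, 2*d, 1] : Fin 6 → ℤ) 1 ≤ (![5*(d:ℤ), 3*d, 3*d, 2*d+1, 2*d, 1] : Fin 6 → ℤ) 0
        show 3*(d:ℤ) ≤ 5*d
        linarith
      · show 3*(d:ℤ) ≤ 3*d
        linarith
      · show 2*(d:ℤ)+1 ≤ 3*d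
        linarith
      · show 2*(d:ℤ) ≤ 2*d+1
        linarith
      · show (1:ℤ) ≤ 2*d
        linarith
      · exact absurd (fun b _ => Fin.le_last b) hi
    · rw [sat_iff]
      refine ⟨?_, ?_, ?_, ?_, ?_, ?_⟩
      · show (d:ℤ)*15 + 2 ≤ 5*d + 3*d + 3*d + (2*d+1) + 2*d + 1
        linarith
      · show (d:ℤ)*10 + 1 ≤ 3*d + 3*d + (2*d+1) + 2*d + 1
        linarith
      · show (d:ℤ)*7 + 1 ≤ 3*d + (2*d+1) + 2*d + 1
        linarith
      · show (d:ℤ)*4 + 2 ≤ (2*d+1) + 2*d + 1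
        linarith
      · show (d:ℤ)*2 + 1 ≤ 2*d + 1
        linarith
      · show (d:ℤ)*0 + 0 ≤ 1
        linarith
    · rw [bVec_eq, sat_iff]
      intro h
      have h0 : (d:ℤ)*15 + 3 ≤ 5*d + 3*d + 3*d + (2*d+1) + 2*d + 1 := h.1
      linarith

/-- **Negative answer to Q1.**  For the weights `w = (5,3,3,2,2,0)` the constants of (S) are
`(3,1,1,2,1,0)`; the relaxation `(2,1,1,2,1,0)` is strict for every `d ≥ 4`, and for every
`d ≥ 4` every non-increasing `C` satisfying the relaxed inequalities is feasible.  In particular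
the positive answer to Q1 fails. -/
theorem result :
    (Antitone (![5,3,3,2,2,0] : Fin 6 → ℕ) ∧
      bVec (![5,3,3,2,2,0] : Fin 6 → ℕ) = ![3,1,1,2,1,0] ∧
      ∀ d : ℕ, 4 ≤ d →
        StrictAt (![5,3,3,2,2,0] : Fin 6 → ℕ) d ![2,1,1,2,1,0] ∧
        ∀ C : Fin 6 → ℤ, Antitone C →
          Sat (![5,3,3,2,2,0] : Fin 6 → ℕ) d ![2,1,1,2,1,0] C →
          Feasible (![5,3,3,2,2,0] : Fin 6 → ℕ) d C) ∧
    ¬ PositiveAnswer := by
  refine ⟨⟨antitone_w, bVec_eq, fun d hd => ⟨strict_at hd, fun C hC h => feasible_of_sat hd hC h⟩⟩,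
    ?_⟩
  intro hpos
  obtain ⟨D, hD⟩ := hpos 6 ![5,3,3,2,2,0] (by norm_num) antitone_w ![2,1,1,2,1,0]
    ⟨4, fun d hd => strict_at hd⟩
  obtain ⟨C, hC, hs, hf⟩ := hD (max D 4) (le_max_left _ _)
  exact hf (feasible_of_sat (le_max_right _ _) hC hs)

end Pool.Agent.Results.MP_bdabc0_co.RelaxableConstant
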